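import Pool.Agent.COV.StmtsB

set_option autoImplicit false

/-!
# Row HNG of squad COV (MP_160b6c_nt): the main step of the negation
-/

namespace Pool.Agent.COV.H50

open Polynomial Pool.Agent.KDT.Z

/-- substitute `X_2 ↦ -X_2`, `X_3 ↦ -X_3` -/
noncomputable def sb {k : Type} [Field k] (G : MvPolynomial (Fin 4) k) : MvPolynomial (Fin 4) k :=
  MvPolynomial.aeval
    (![MvPolynomial.X 0, MvPolynomial.X 1, -MvPolynomial.X 2, -MvPolynomial.X 3] :
      Fin 4 → MvPolynomial (Fin 4) k) G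

theorem aeval_sb {k U : Type} [Field k] [Field U] [Algebra k U] (q : Fin 4 → U)
    (G : MvPolynomial (Fin 4) k) :
    MvPolynomial.aeval q (sb G) = MvPolynomial.aeval (ngv q) G := by
  unfold sb
  have h : (MvPolynomial.aeval q).comp (MvPolynomial.aeval
      (![MvPolynomial.X 0, MvPolynomial.X 1, -MvPolynomial.X 2, -MvPolynomial.X 3] :
        Fin 4 → MvPolynomial (Fin 4) k)) = MvPolynomial.aeval (ngv q) := by
    apply MvPolynomial.algHom_ext
    intro i
    fin_cases i <;> simp [ngv]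
  exact DFunLike.congr_fun h G

theorem eval_sb {k : Type} [Field k] (t : Fin 4 → k) (G : MvPolynomial (Fin 4) k) :
    MvPolynomial.eval t (sb G) = MvPolynomial.eval (ngv t) G := by
  have h := aeval_sb (k := k) (U := k) t G
  rw [MvPolynomial.aeval_eq_eval, MvPolynomial.aeval_eq_eval] at h
  exact h

theorem spc_ngv {k U : Type} [Field k] [Field U] [Algebra k U] (q : Fin 4 → U) (t : Fin 4 → k)
    (h : Spc q t) : Spc (ngv q) (ngv t) := by
  intro G hG
  rw [← eval_sb]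
  apply h
  rw [aeval_sb]
  exact hG

theorem vv_emb {k U : Type} [Field k] [Field U] [Algebra k U] (q : Fin 4 → U) (t : Fin 4 → k)
    (h : Spc q t) : VV k q (emb U t) := by
  intro G hG
  have h1 := h G hG
  have h2 : MvPolynomial.aeval (emb U t) G = algebraMap k U (MvPolynomial.eval t G) := by
    have h3 : emb U t = fun i => algebraMap k U (t i) := rfl
    rw [h3]
    exact MvPolynomial.aeval_algebraMap_apply U t G
  rw [h2, h1, map_zero]

theorem hng (h1 : GhiStmt) (h2 : GnlStmt) (h3 : TrvStmt) (h4 : HsaStmt)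
    (h5 : KDT.Z.CmaStatement) (h6 : KDT.Z.EmbStatement) : HngStmt := by
  intro k U _ _ _ f g J _ th cl act Jk q H0 t0 ctx
  have env := ctx.env
  haveI : IsAlgClosed k := env.kc
  haveI : IsAlgClosed U := env.oc
  haveI : CharZero k := env.ch
  haveI : CharZero U := charZero_of_injective_algebraMap (algebraMap k U).injective
  have jk := ctx.jk
  have jg : JG g J th cl := jk.toJG
  obtain ⟨hnq, hnqc⟩ := jg.cl_ngv q ctx.on
  have hsymr := h5.1 U
  have hE := h6 k U f g env.gm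
  have ht0 : On g (emb U t0) := ((hE t0 t0).2.2.2.1).2 ctx.ot
  have ht0k : cl (emb U t0) ∈ Jk := (jk.mem_k _).2 (Or.inr (Or.inr ⟨t0, ctx.ot, ht0, rfl⟩))
  have hH0 : ∀ h ∈ H0, h ∈ Jk := fun h hh => ((ctx.h0 h).1 hh).1
  have star : ∀ x : Fin 4 → U, On g x → cl x ∈ Jk → ∃ v : Fin 4 → k, On f v ∧ x = emb U v := by
    intro x hx hxk
    rcases (jk.mem_k _).1 hxk with h | ⟨z, -, hz⟩ | ⟨v, hv, hvg, hvc⟩
    · exact absurd h (jg.cl_ne x hx)
    · exact absurd hz (jg.cl_th x z hx)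
    · exact ⟨v, hv, jg.cl_inj x _ hx hvg hvc⟩
  have hsa := h4 k U f g J th cl act Jk q H0 t0 ctx
  generalize ha0 : cl (emb U t0) = a0 at ht0k hsa ⊢
  obtain ⟨C, hC⟩ := h1 U g J th cl jg (a0 + a0) (ngv q) hnq
  refine ⟨C, fun h' hh' hgen => ?_⟩
  obtain ⟨x, hx, hxc, hxr, hxo⟩ := hC h' hgen
  have hxk : cl x ∈ Jk := by
    rw [← hxc]
    exact Jk.add_mem (Jk.add_mem ht0k ht0k) (hH0 _ hh')
  obtain ⟨v, hv, rfl⟩ := star x hx hxk
  have hr' : rr (ngv q) (emb U v) ≠ 0 := by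
    rw [(hsymr _ _).1]
    exact hxr
  have ho' : ro (ngv q) (emb U v) ≠ 0 := by
    rw [(hsymr _ _).2]
    exact hxo
  obtain ⟨hy, hyc⟩ := jg.comp (ngv q) (emb U v) hnq hx hr' ho'
  refine ⟨cmp (g.coeff 4) (ngv q) (emb U v), hy, ?_, ?_⟩
  · refine h3 k U f g env (g.coeff 4) (ngv q) q (emb U v) ?_ (ngv q) (fun G hG => hG) hr' ho'
    obtain ⟨g1, g2, g3, g4⟩ := h2 U g J th cl jg H0
    have e1 := g3 _ (g2 _ h' hh' hsa)
    have e2 : Gn th H0 fun h => KDT.Z.Good g cl (-a0 + h) (emb U v) := by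
      obtain ⟨C', hC'⟩ := h1 U g J th cl jg (-a0) (emb U v) hx
      exact ⟨C', fun h _ hg => hC' h hg⟩
    have e3 := g3 _ e2
    have e4 := g4 ctx.inf _ (g1 _ _ hsa (g1 _ _ e1 e3))
    have key : ∀ h ∈ {h : J | h ∈ H0 ∧ (∃ t : Fin 4 → k, On f t ∧ Spc q t ∧
        cl (emb U t) = a0 + h) ∧ (∃ t : Fin 4 → k, On f t ∧ Spc q t ∧
        cl (emb U t) = a0 + (-h + h')) ∧ KDT.Z.Good g cl (-a0 + -h) (emb U v)},
        ∃ t : Fin 4 → k, t ∈ {t : Fin 4 → k | Spc (ngv q) t ∧ rr (emb U t) (emb U v) ≠ 0 ∧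
          ro (emb U t) (emb U v) ≠ 0 ∧ VV k q (cmp (g.coeff 4) (emb U t) (emb U v))} ∧
          cl (emb U t) = -(a0 + h) := by
      rintro h ⟨hh, ⟨t2, o2, s2, c2⟩, ⟨t3, o3, s3, c3⟩, ⟨q', oq', cq', rq', roq'⟩⟩
      have og2 : On g (emb U t2) := ((hE t2 t2).2.2.2.1).2 o2
      have og3 : On g (emb U t3) := ((hE t3 t3).2.2.2.1).2 o3
      obtain ⟨on2, cn2⟩ := jg.cl_ngv _ og2
      have en2 : ngv (emb U t2) = emb U (ngv t2) := (hE t2 t2).2.2.2.2.2.1
      rw [en2] at on2 cn2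
      have hq' : q' = emb U (ngv t2) := by
        apply jg.cl_inj _ _ oq' on2
        rw [cn2, c2, ← cq']
        abel
      rw [hq'] at rq' roq'
      refine ⟨ngv t2, ⟨spc_ngv q t2 s2, rq', roq', ?_⟩, by rw [cn2, c2]⟩
      obtain ⟨oc, cc⟩ := jg.comp _ _ on2 hx rq' roq'
      have heq : cmp (g.coeff 4) (emb U (ngv t2)) (emb U v) = emb U t3 := by
        apply jg.cl_inj _ _ oc og3
        rw [← cc, cn2, c2, ← hxc, c3]
        abel
      rw [heq]
      exact vv_emb q t3 s3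
    choose! T hT using key
    refine Set.infinite_of_injOn_mapsTo (f := T) ?_ (fun h hh => (hT h hh).1) e4
    intro h hh h'' hh'' heq
    have e5 := (hT h hh).2
    have e6 := (hT h'' hh'').2
    rw [heq] at e5
    have e7 := e5.symm.trans e6
    exact add_left_cancel (neg_injective e7)
  · rw [← hyc, hnqc, ← hxc]
    abel

end Pool.Agent.COV.H50
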