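import Pool.Agent.COV.StmtsD

set_option autoImplicit false

/-!
# Row SZA of squad COV (MP_160b6c_nt): size of a fixed polynomial in the F i
-/

namespace Pool.Agent.COV.H50

open Polynomial NumberField Pool.Agent.TTC

theorem supp_card {R : Type} [CommSemiring R] {n k : ℕ} (Q : MvPolynomial (Fin n) R)
    (h : Q.totalDegree ≤ k) : Q.support.card ≤ (k + 1) ^ n := by
  have hb : ∀ b ∈ Q.support, ∀ i, b i < k + 1 := by
    intro b hb i
    have h1 := MvPolynomial.le_totalDegree hb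
    have h2 : b i ≤ b.sum fun _ e => e := by
      by_cases hi : i ∈ b.support
      · exact Finset.single_le_sum (f := fun i => b i) (fun _ _ => Nat.zero_le _) hi
      · rw [Finsupp.notMem_support_iff.1 hi]
        exact Nat.zero_le _
    omega
  have h3 : Q.support.card ≤ (Finset.univ : Finset (Fin n → Fin (k + 1))).card := by
    refine Finset.card_le_card_of_injOn (fun b i => Fin.ofNat (k + 1) (b i))
      (fun _ _ => Finset.mem_univ _) ?_
    intro b hb1 b' hb2 he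
    ext i
    have h4 := congrArg Fin.val (congrFun he i)
    simp only [Fin.ofNat] at h4
    rw [Nat.mod_eq_of_lt (hb b hb1 i), Nat.mod_eq_of_lt (hb b' hb2 i)] at h4
    exact h4
  simpa using h3

theorem coeff_mul_bd {R : Type} [CommRing R] {n : ℕ} (φ : R →+* ℂ) (P Q : MvPolynomial (Fin n) R)
    (M1 M2 : ℝ) (hM1 : 0 ≤ M1) (hP : ∀ l, ‖φ (P.coeff l)‖ ≤ M1) (hQ : ∀ l, ‖φ (Q.coeff l)‖ ≤ M2)
    (l : Fin n →₀ ℕ) : ‖φ ((P * Q).coeff l)‖ ≤ (Q.support.card : ℝ) * (M1 * M2) := by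
  have hM2 : 0 ≤ M2 := le_trans (norm_nonneg _) (hQ 0)
  have e : P * Q = ∑ b ∈ Q.support, P * MvPolynomial.monomial b (Q.coeff b) := by
    conv_lhs => rw [Q.as_sum, Finset.mul_sum]
  rw [e, MvPolynomial.coeff_sum, map_sum]
  refine (norm_sum_le _ _).trans ?_
  rw [← nsmul_eq_mul]
  refine Finset.sum_le_card_nsmul _ _ _ (fun b _ => ?_)
  rw [MvPolynomial.coeff_mul_monomial']
  split_ifs
  · rw [map_mul, norm_mul]
    exact mul_le_mul (hP _) (hQ _) (norm_nonneg _) hM1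
  · rw [map_zero, norm_zero]
    exact mul_nonneg hM1 hM2

theorem pow_mono_nat {A A' H : ℕ} (hH : 1 ≤ H) (h : A ≤ A') : ((H : ℝ)) ^ A ≤ (H : ℝ) ^ A' :=
  pow_le_pow_right₀ (by exact_mod_cast hH) h

theorem bd_mono {A A' H : ℕ} (hH : 1 ≤ H) (h : A ≤ A') :
    (A : ℝ) * (H : ℝ) ^ A ≤ (A' : ℝ) * (H : ℝ) ^ A' := by
  have h1 : (A : ℝ) ≤ (A' : ℝ) := by exact_mod_cast h
  have h2 := pow_mono_nat hH h
  have h3 : (0 : ℝ) ≤ (H : ℝ) ^ A := by positivity
  have h4 : (0 : ℝ) ≤ (A' : ℝ) := by positivity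
  exact mul_le_mul h1 h2 h3 h4

theorem sza : SzaStmt := by
  intro P k n
  induction P using MvPolynomial.induction_on with
  | C a =>
    refine ⟨a.natAbs, ?_⟩
    intro K₀ _ _ F H hH hF
    have e : MvPolynomial.aeval F (MvPolynomial.C a : MvPolynomial (Fin 7) ℤ) =
        MvPolynomial.C ((a : ℤ) : 𝓞 K₀) := by
      rw [MvPolynomial.aeval_C]
      simp
    rw [e]
    refine ⟨by rw [MvPolynomial.totalDegree_C]; exact Nat.zero_le _, ?_⟩
    intro ψ l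
    show ‖(ψ.comp (algebraMap (𝓞 K₀) K₀)) _‖ ≤ _
    have h1 : (0 : ℝ) ≤ (a.natAbs : ℝ) := by positivity
    have h2 : (1 : ℝ) ≤ (H : ℝ) ^ a.natAbs := one_le_pow₀ (by exact_mod_cast hH)
    rw [MvPolynomial.coeff_C]
    split_ifs
    · rw [map_intCast]
      have h3 : ‖((a : ℤ) : ℂ)‖ = (a.natAbs : ℝ) := by
        rw [Complex.norm_intCast]
        rw [Nat.cast_natAbs]
        simp
      rw [h3]
      nlinarith
    · rw [map_zero, norm_zero]
      positivity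
  | add P Q hP hQ =>
    obtain ⟨A1, hA1⟩ := hP
    obtain ⟨A2, hA2⟩ := hQ
    refine ⟨A1 + A2, ?_⟩
    intro K₀ _ _ F H hH hF
    obtain ⟨d1, c1⟩ := hA1 K₀ F H hH hF
    obtain ⟨d2, c2⟩ := hA2 K₀ F H hH hF
    rw [map_add]
    refine ⟨(MvPolynomial.totalDegree_add _ _).trans (by omega), ?_⟩
    intro ψ l
    have c1' : ‖(ψ.comp (algebraMap (𝓞 K₀) K₀)) ((MvPolynomial.aeval F P).coeff l)‖ ≤
        (A1 : ℝ) * (H : ℝ) ^ A1 := c1 ψ l
    have c2' : ‖(ψ.comp (algebraMap (𝓞 K₀) K₀)) ((MvPolynomial.aeval F Q).coeff l)‖ ≤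
        (A2 : ℝ) * (H : ℝ) ^ A2 := c2 ψ l
    show ‖(ψ.comp (algebraMap (𝓞 K₀) K₀)) _‖ ≤ _
    rw [MvPolynomial.coeff_add, map_add]
    refine (norm_add_le _ _).trans ((add_le_add c1' c2').trans ?_)
    have p1 := pow_mono_nat (A := A1) (A' := A1 + A2) hH (by omega)
    have p2 := pow_mono_nat (A := A2) (A' := A1 + A2) hH (by omega)
    have q1 : (0 : ℝ) ≤ (A1 : ℝ) := by positivity
    have q2 : (0 : ℝ) ≤ (A2 : ℝ) := by positivity
    have r1 := mul_le_mul_of_nonneg_left p1 q1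
    have r2 := mul_le_mul_of_nonneg_left p2 q2
    rw [Nat.cast_add, add_mul]
    exact add_le_add r1 r2
  | mul_X P i hP =>
    obtain ⟨A, hA⟩ := hP
    refine ⟨(k + 1) ^ n * A + A + 1 + k, ?_⟩
    intro K₀ _ _ F H hH hF
    obtain ⟨d1, c1⟩ := hA K₀ F H hH hF
    obtain ⟨d2, c2⟩ := hF i
    rw [map_mul, MvPolynomial.aeval_X]
    refine ⟨(MvPolynomial.totalDegree_mul _ _).trans (by omega), ?_⟩
    intro ψ l
    show ‖(ψ.comp (algebraMap (𝓞 K₀) K₀)) _‖ ≤ _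
    have hM1 : (0 : ℝ) ≤ (A : ℝ) * (H : ℝ) ^ A := by positivity
    have h1 := coeff_mul_bd (ψ.comp (algebraMap (𝓞 K₀) K₀)) (MvPolynomial.aeval F P) (F i)
      ((A : ℝ) * (H : ℝ) ^ A) (H : ℝ) hM1 (c1 ψ) (c2 ψ) l
    refine h1.trans ?_
    have h2 : (((F i).support.card : ℕ) : ℝ) ≤ (((k + 1) ^ n : ℕ) : ℝ) := by
      exact_mod_cast supp_card (F i) d2
    have h3 : (0 : ℝ) ≤ (A : ℝ) * (H : ℝ) ^ A * (H : ℝ) := by positivity
    have h4 := mul_le_mul_of_nonneg_right h2 h3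
    refine h4.trans ?_
    have e : (((k + 1) ^ n : ℕ) : ℝ) * ((A : ℝ) * (H : ℝ) ^ A * (H : ℝ)) =
        (((k + 1) ^ n * A : ℕ) : ℝ) * (H : ℝ) ^ (A + 1) := by
      push_cast
      ring
    rw [e]
    have h5 : (((k + 1) ^ n * A : ℕ) : ℝ) ≤ (((k + 1) ^ n * A + A + 1 + k : ℕ) : ℝ) := by
      exact_mod_cast (by omega)
    have h6 := pow_mono_nat (A := A + 1) (A' := (k + 1) ^ n * A + A + 1 + k) hH (by omega)
    exact mul_le_mul h5 h6 (by positivity) (by positivity)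

end Pool.Agent.COV.H50
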